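import Pool.Agent.H71.CT.Main

/-!
Some automorphism of the partial order of complexity types maps a type contained in `P` to a
type not contained in `P`.
-/

namespace Pool.Agent.Results.MP_cbdf00_lc.AutomorphismMovesP

open Pool.Agent.H71.CT

/-- There are an order automorphism `π` of the complexity types and a complexity type `C`
contained in `P` whose image `π C` is not contained in `P`. -/
theorem result : ∃ (π : CType ≃o CType) (C : CType), InP C ∧ ¬ InP (π C) :=
  main

end Pool.Agent.Results.MP_cbdf00_lc.AutomorphismMovesP
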